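import Mathlib
import Pool.Agent.X16.BC.D

/-!
# Uniform growth gap when the eigenvalues have companions of bounded height

`G = ⟨S⟩`, `H` is a subgroup of index at most `d`, `Γ = γ_{k+1}(H)` is nilpotent (or `H/[Γ,Γ]` is
not virtually nilpotent).  Suppose that the minimal polynomial `f` of each eigenvalue of an element of
`H` on `ℂ ⊗ Γ^ab` that is a unit and not a root of unity has a *companion*: an integer polynomial
`g ≠ 0` without a common factor with `f` such that

`∫ log max (|f|, |g|) ≤ K (1 + log M(f))`   (normalized integral over the unit circle).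

Then `G` is virtually nilpotent or `ρ_S ≥ c / (2 ^ (k + 1) (2 d - 1))`, where `c > 0` depends on `K`
only.  The degrees of the eigenvalues, their conjugates, the ranks and the number of generators are
arbitrary.

Companions: the reversed polynomial is a companion of each nonreciprocal `f` (`K = 1`), and `1` is a
companion if the integral of `log⁺ |f|` over the circle is at most `K`; a derivative or any other
integer polynomial coprime to `f` may be used too.

Method.  The Mahler measure of a polynomial with a companion of bounded height is `1` or at least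
`μ(K) > 1` (`Pool.Agent.H261R2.CM.gap_one`, starting library); the growth of digit sums in base `z` is
bounded from below in terms of `M(z)`.
-/

set_option autoImplicit false

namespace Pool.Agent.Results.MP_d69e80_al.CompanionEigenvalues

open Filter Topology Polynomial
open scoped Pointwise commutatorElement TensorProduct

universe u

/-- The term `γ_{k+1}(G)` of the lower central series (so `k = 1` gives `G'`). -/
abbrev gamma (G : Type*) [Group G] (k : ℕ) : Subgroup G := (⊤ : Subgroup G).lowerCentralSeries k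

/-- Conjugation by `t` on the abelianization `N^ab` (written additively) of a normal subgroup `N`,
as an endomorphism of the abelian group `N^ab`. -/
noncomputable def conjAb {G : Type*} [Group G] (N : Subgroup G) [N.Normal] (t : G) :
    Module.End ℤ (Additive (Abelianization N)) :=
  (MonoidHom.toAdditive
    (Abelianization.map (MulAut.conjNormal t : N ≃* N).toMonoidHom)).toIntLinearMap

/-- `z` is an algebraic unit, and not a root of unity -/
def IsFreeUnit (z : ℂ) : Prop :=
  z ≠ 0 ∧ IsIntegral ℤ z ∧ IsIntegral ℤ z⁻¹ ∧ ∀ m : ℕ, 0 < m → z ^ m ≠ 1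

/-- `ρ` is the exponential growth rate of `S` -/
def IsGrowthRate {G : Type u} [Group G] (S : Set G) (ρ : ℝ) : Prop :=
  Tendsto (fun n : ℕ => Real.log (Nat.card ↥(S ^ n)) / n) atTop (𝓝 ρ)

/-- the group `G = ⟨S⟩` is virtually nilpotent or has growth rate at least `b` for the generating set
`S` -/
def GapFor {G : Type u} [Group G] (S : Set G) (b : ℝ) : Prop :=
  ∃ ρ : ℝ, IsGrowthRate S ρ ∧ (Group.IsVirtuallyNilpotent G ∨ b ≤ ρ)

/-- `Γ = γ_{k+1}(H)` is nilpotent, or `H / [Γ, Γ]` is not virtually nilpotent -/
def Tail (H : Type u) [Group H] (k : ℕ) : Prop :=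
  Group.IsNilpotent (gamma H k) ∨ ¬ Group.IsVirtuallyNilpotent (H ⧸ ⁅gamma H k, gamma H k⁆)

/-- the value `|f (e (t))|`, `e (t) = exp (2 π i t)` -/
noncomputable def circAbs (f : ℤ[X]) (t : ℝ) : ℝ :=
  ‖(f.map (Int.castRingHom ℂ)).eval (Complex.exp (2 * Real.pi * Complex.I * t))‖

/-- the minimal polynomial `f` of `z` has a companion: an integer polynomial `g ≠ 0` without a common
factor with `f` such that `∫_0^1 log max (|f (e (t))|, |g (e (t))|) dt ≤ K (1 + log M(f))` -/
def HasCompanion (K : ℝ) (z : ℂ) : Prop :=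
  ∃ g : ℤ[X], g ≠ 0 ∧ IsRelPrime (minpoly ℤ z) g ∧
    ∫ t in (0 : ℝ)..1, Real.log (max (circAbs (minpoly ℤ z) t) (circAbs g t)) ≤
      K * (1 + Real.log ((minpoly ℤ z).map (Int.castRingHom ℂ)).mahlerMeasure)

/-- for `Γ = γ_{k+1}(H)`, the eigenvalues of the elements of `H` on `ℂ ⊗ Γ^ab`, as far as they are
units and not roots of unity, have companions -/
def EigenvalueCompanions (K : ℝ) (H : Type u) [Group H] (k : ℕ) : Prop :=
  ∀ (t : H) (z : ℂ), Module.End.HasEigenvalue
    (LinearMap.baseChange ℂ (conjAb (gamma H k) t) :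
      Module.End ℂ (ℂ ⊗[ℤ] Additive (Abelianization (gamma H k)))) z →
    IsFreeUnit z → HasCompanion K z

theorem circAbs_eq (f : ℤ[X]) (t : ℝ) : circAbs f t = ‖Pool.Agent.H261R2.CM.ev1 f t‖ :=
  rfl

theorem hasComp_iff (K : ℝ) (z : ℂ) : HasCompanion K z ↔ Pool.Agent.X16.BC.HasComp K z := by
  have h : ∀ g : ℤ[X], (∫ t in (0 : ℝ)..1,
      Real.log (max (circAbs (minpoly ℤ z) t) (circAbs g t))) =
      Pool.Agent.H261R2.CM.mx1 (minpoly ℤ z) g := by
    intro g
    unfold Pool.Agent.H261R2.CM.mx1
    simp only [circAbs_eq]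
  unfold HasCompanion Pool.Agent.X16.BC.HasComp
  simp only [h]
  rfl

/-- (1) For every `K` there is `c > 0` such that for all `k, d ≥ 1`, all groups `G` with a finite
generating set `S` and all subgroups `H` of index at most `d` such that `Γ = γ_{k+1}(H)` is nilpotent
(or `H / [Γ, Γ]` is not virtually nilpotent) and the minimal polynomials of the eigenvalues of the
elements of `H` on `ℂ ⊗ Γ^ab`, as far as they are units and not roots of unity, have companions: `ρ_S`
exists, and `G` is virtually nilpotent or `ρ_S ≥ c / (2 ^ (k + 1) (2 d - 1))`.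
(2) A free unit `z` such that `1 / z` is not conjugate to `z` has a companion, with `K = 1`.
(3) So does a free unit `z` whose minimal polynomial `f` satisfies `∫ log⁺ |f| ≤ K`. -/
theorem result :
    (∀ K : ℝ, ∃ c : ℝ, 0 < c ∧ ∀ k d : ℕ, 1 ≤ k → ∀ (G : Type u) [Group G] (S : Set G),
      S.Finite → Subgroup.closure S = ⊤ → ∀ H : Subgroup G, H.index ≠ 0 → H.index ≤ d →
        Tail H k → EigenvalueCompanions K H k → GapFor S (c / (2 ^ (k + 1) * (2 * d - 1)))) ∧
    (∀ z : ℂ, IsFreeUnit z → aeval z⁻¹ (minpoly ℤ z) ≠ 0 → HasCompanion 1 z) ∧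
    (∀ (K : ℝ) (z : ℂ), IsFreeUnit z →
      ∫ t in (0 : ℝ)..1, Real.log (max (circAbs (minpoly ℤ z) t) 1) ≤ K → HasCompanion K z) := by
  refine ⟨fun K => ?_, fun z hz hne => ?_, fun K z hz h => ?_⟩
  · obtain ⟨c, hc, h⟩ := Pool.Agent.X16.BC.gap_comp.{u} K
    refine ⟨c, hc, fun k d hk G _ S hfin hgen H hH0 hHd hnil heig => ?_⟩
    refine ⟨Pool.Agent.H746UG.rho S, Pool.Agent.H746UG.tendsto_rho S,
      h k d hk G S hfin hgen H hH0 hHd hnil ?_⟩
    intro t z hz hu
    exact (hasComp_iff K z).1 (heig t z hz hu)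
  · exact (hasComp_iff 1 z).2 (Pool.Agent.X16.BC.comp_nonrec z hz.1 hz.2.1 hne)
  · refine (hasComp_iff K z).2 (Pool.Agent.X16.BC.comp_logplus K z hz.2.1 ?_)
    simpa only [circAbs_eq] using h

end Pool.Agent.Results.MP_d69e80_al.CompanionEigenvalues
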