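import Mathlib
import Pool.Agent.X186.MJ.U
import Pool.Agent.Y730.UG.Tri2

/-!
# Uniform growth gap when the eigenvalues have bounded degree over cyclotomic fields

`G = ⟨S⟩`, `H` is a subgroup of index at most `d`, `Γ = γ_{k+1}(H)` is nilpotent (or `H/[Γ,Γ]` is
not virtually nilpotent).  If the eigenvalues of the elements of `H` on `ℂ ⊗ Γ^ab`, as far as they
are units and not roots of unity, have degree at most `D` over the field generated by all roots of
unity, then `G` is virtually nilpotent or `ρ_S ≥ 1 / (40 D ^ 2 2 ^ (k + 1) (2 d - 1))`.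

In particular this holds, with `k = 1`, if `H` is isomorphic to a group of upper triangular matrices,
of any size, whose diagonal entries belong to a field of degree at most `D` over the field generated
by all roots of unity. The field is not fixed and its degree over `ℚ` is arbitrary.

Method: `Pool.Agent.X186.MJ.mahler_cyc` says `n log 2 ≤ 32 D ^ 2 log M(x)` for algebraic integers `x`
of degree `n` over `ℚ` and of degree at most `D` over a cyclotomic field, not `0` or a root of unity;
the growth of digit sums in base `x` is bounded from below in terms of `M(x)`.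
-/

set_option autoImplicit false

namespace Pool.Agent.Results.MP_d69e80_al.CyclotomicEigenvalues

open Filter Topology Polynomial
open scoped Pointwise commutatorElement TensorProduct

universe u

/-- The term `γ_{k+1}(G)` of the lower central series (so `k = 1` gives `G'`). -/
abbrev gamma (G : Type*) [Group G] (k : ℕ) : Subgroup G := (⊤ : Subgroup G).lowerCentralSeries k

/-- Conjugation by `t` on the abelianization `N^ab` (written additively) of a normal subgroup `N`,
as an endomorphism of the abelian group `N^ab`. -/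
noncomputable def conjAb {G : Type*} [Group G] (N : Subgroup G) [N.Normal] (t : G) :
    Module.End ℤ (Additive (Abelianization N)) :=
  (MonoidHom.toAdditive
    (Abelianization.map (MulAut.conjNormal t : N ≃* N).toMonoidHom)).toIntLinearMap

/-- `z` is an algebraic unit, and not a root of unity -/
def IsFreeUnit (z : ℂ) : Prop :=
  z ≠ 0 ∧ IsIntegral ℤ z ∧ IsIntegral ℤ z⁻¹ ∧ ∀ m : ℕ, 0 < m → z ^ m ≠ 1

/-- `z` is algebraic, of degree at most `D` over the field `ℚ (ζ)` for some root of unity `ζ` -/
def CyclotomicDegree (D : ℕ) (z : ℂ) : Prop :=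
  IsAlgebraic ℚ z ∧ ∃ ζ : ℂ, (∃ m : ℕ, 0 < m ∧ ζ ^ m = 1) ∧
    (minpoly (IntermediateField.adjoin ℚ {ζ}) z).natDegree ≤ D

/-- `ρ` is the exponential growth rate of `S` -/
def IsGrowthRate {G : Type u} [Group G] (S : Set G) (ρ : ℝ) : Prop :=
  Tendsto (fun n : ℕ => Real.log (Nat.card ↥(S ^ n)) / n) atTop (𝓝 ρ)

/-- the group `G = ⟨S⟩` is virtually nilpotent or has growth rate at least `b` for the generating set
`S` -/
def GapFor {G : Type u} [Group G] (S : Set G) (b : ℝ) : Prop :=
  ∃ ρ : ℝ, IsGrowthRate S ρ ∧ (Group.IsVirtuallyNilpotent G ∨ b ≤ ρ)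

/-- for `Γ = γ_{k+1}(H)`, the eigenvalues of the elements of `H` on `ℂ ⊗ Γ^ab`, as far as they are
units and not roots of unity, have degree at most `D` over cyclotomic fields -/
def EigenvalueDegrees (D : ℕ) (H : Type u) [Group H] (k : ℕ) : Prop :=
  ∀ (t : H) (z : ℂ), Module.End.HasEigenvalue
    (LinearMap.baseChange ℂ (conjAb (gamma H k) t) :
      Module.End ℂ (ℂ ⊗[ℤ] Additive (Abelianization (gamma H k)))) z →
    IsFreeUnit z → CyclotomicDegree D z

/-- `Γ = γ_{k+1}(H)` is nilpotent, or `H / [Γ, Γ]` is not virtually nilpotent -/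
def Tail (H : Type u) [Group H] (k : ℕ) : Prop :=
  Group.IsNilpotent (gamma H k) ∨ ¬ Group.IsVirtuallyNilpotent (H ⧸ ⁅gamma H k, gamma H k⁆)

/-- `H` is isomorphic to a group of upper triangular complex matrices (of some size) with all
diagonal entries in the field `L` -/
def Triangular (L : IntermediateField ℚ ℂ) (H : Type u) [Group H] : Prop :=
  ∃ (n : ℕ) (φ : H →* GL (Fin n) ℂ), Function.Injective φ ∧
    ∀ h : H, (∀ i j : Fin n, j < i → φ h i j = 0) ∧ ∀ i : Fin n, φ h i i ∈ L

/-- Let `S` be a finite generating set of a group `G`, `H` a subgroup of index at most `d`, and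
`D ≥ 1`. Then `ρ_S` exists, and `G` is virtually nilpotent or `ρ_S` is at least
(1) `1 / (40 D ^ 2 2 ^ (k + 1) (2 d - 1))` if, for some `k ≥ 1`, `Γ = γ_{k+1}(H)` is nilpotent (or
`H / [Γ, Γ]` is not virtually nilpotent) and the eigenvalues of the elements of `H` on `ℂ ⊗ Γ^ab`, as
far as they are units and not roots of unity, have degree at most `D` over cyclotomic fields;
(2) `1 / (160 D ^ 2 (2 d - 1))` if `H` is isomorphic to a group of upper triangular complex matrices,
of any size, with diagonal entries in a field `L` all of whose elements have degree at most `D` over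
cyclotomic fields. -/
theorem result (G : Type u) [Group G] (S : Set G) (hfin : S.Finite)
    (hgen : Subgroup.closure S = ⊤) (d : ℕ) (H : Subgroup G) (hH0 : H.index ≠ 0)
    (hHd : H.index ≤ d) (D : ℕ) (hD : 1 ≤ D) :
    (∀ k : ℕ, 1 ≤ k → Tail H k → EigenvalueDegrees D H k →
      GapFor S (1 / (40 * (D : ℝ) ^ 2 * 2 ^ (k + 1) * (2 * d - 1)))) ∧
    (∀ L : IntermediateField ℚ ℂ, (∀ β ∈ L, CyclotomicDegree D β) → Triangular L H →
      GapFor S (1 / (160 * (D : ℝ) ^ 2 * (2 * d - 1)))) := by
  constructor
  · intro k hk hnil heig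
    refine ⟨Pool.Agent.H746UG.rho S, Pool.Agent.H746UG.tendsto_rho S,
      Pool.Agent.X186.MJ.gap_cycl hk S hfin hgen H hH0 hHd hnil D hD ?_⟩
    intro t z hz h0 h1 h2 h3
    exact ⟨z, minpoly.aeval ℤ z, (heig t z hz ⟨h0, h1, h2, h3⟩).2⟩
  · rintro L hL ⟨n, φ, hφ, htri⟩
    have hB : ∀ h, φ h ∈ Pool.Agent.Y730.UG.Bor n ℂ := fun h =>
      Pool.Agent.Y730.UG.mem_Bor (htri h).1
    have e : (1 : ℝ) / (160 * (D : ℝ) ^ 2 * (2 * d - 1)) =
        1 / (40 * (D : ℝ) ^ 2 * 2 ^ (1 + 1) * (2 * d - 1)) := by
      congr 1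
      ring
    rw [e]
    refine ⟨Pool.Agent.H746UG.rho S, Pool.Agent.H746UG.tendsto_rho S,
      Pool.Agent.X186.MJ.gap_cycl le_rfl S hfin hgen H hH0 hHd
        (Or.inl (Pool.Agent.Y730.UG.gam_nilp φ hB hφ)) D hD ?_⟩
    intro t z hz h0 h1 h2 h3
    -- an embedding of the algebraic numbers
    have hnormal := Pool.Agent.X186.MJ.normal_rat
    have halg : Algebra.IsAlgebraic ℚ (AlgebraicClosure ℚ) := hnormal.toIsAlgebraic
    let ι : AlgebraicClosure ℚ →+* ℂ := (IsAlgClosed.lift : AlgebraicClosure ℚ →ₐ[ℚ] ℂ).toRingHom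
    have hι : ∀ y : ℂ, IsAlgebraic ℚ y → ∃ β : AlgebraicClosure ℚ, ι β = y := by
      intro y hy
      have hyi : IsIntegral ℚ y := hy.isIntegral
      have hs : ((minpoly ℚ y).map (algebraMap ℚ (AlgebraicClosure ℚ))).Splits :=
        IsAlgClosed.splits _
      have h4 := hs.eq_prod_roots_of_monic ((minpoly.monic hyi).map _)
      have h5 : ((minpoly ℚ y).map (algebraMap ℚ (AlgebraicClosure ℚ))).map ι =
          (minpoly ℚ y).map (algebraMap ℚ ℂ) := by
        rw [Polynomial.map_map]
        congr 1
        exact Subsingleton.elim _ _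
      have h6 : ((minpoly ℚ y).map (algebraMap ℚ ℂ)).eval y = 0 := by
        rw [eval_map_algebraMap, minpoly.aeval]
      rw [← h5, h4, Polynomial.map_multiset_prod, Multiset.map_map, eval_multiset_prod,
        Multiset.prod_eq_zero_iff, Multiset.mem_map] at h6
      obtain ⟨P, hP, hP0⟩ := h6
      obtain ⟨β, hβ, rfl⟩ := Multiset.mem_map.mp hP
      refine ⟨β, ?_⟩
      simp only [Function.comp_apply, Polynomial.map_sub, map_X, map_C, eval_sub, eval_X,
        eval_C] at hP0
      exact (sub_eq_zero.mp hP0).symm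
    choose β hβ using fun i => hι (φ t i i) (hL _ ((htri t).2 i)).1
    obtain ⟨i, j, hij⟩ := Pool.Agent.Y730.UG.eig_tri φ hB hφ t ι β hβ hz
    -- the conjugate in `L`
    refine ⟨ι (β i / β j), ?_, ?_⟩
    · have hzQ : IsIntegral ℚ z := h1.tower_top
      have hβi : IsIntegral ℚ (β i / β j) := by
        obtain ⟨P, hP0, hP⟩ : IsAlgebraic ℚ (β i / β j) := by
          have h7 : IsAlgebraic ℚ (ι (β i / β j)) := by
            rw [map_div₀, hβ, hβ]
            exact (hL _ (div_mem ((htri t).2 i) ((htri t).2 j))).1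
          obtain ⟨P, hP0, hP⟩ := h7
          refine ⟨P, hP0, ι.injective ?_⟩
          have h8 := Polynomial.aeval_algHom_apply ι.toRatAlgHom (β i / β j) P
          rw [map_zero]
          exact h8.symm.trans hP
        exact (IsAlgebraic.isIntegral ⟨P, hP0, hP⟩)
      have hmin : minpoly ℚ z = minpoly ℚ (β i / β j) := by
        have h7 : minpoly ℚ z ∣ minpoly ℚ (β i / β j) := minpoly.dvd ℚ z hij
        exact eq_of_monic_of_associated (minpoly.monic hzQ) (minpoly.monic hβi)
          ((minpoly.irreducible hzQ).associated_of_dvd (minpoly.irreducible hβi) h7)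
      have h8 : aeval (ι (β i / β j)) (minpoly ℚ z) = 0 := by
        rw [hmin]
        have h9 := Polynomial.aeval_algHom_apply ι.toRatAlgHom (β i / β j)
          (minpoly ℚ (β i / β j))
        rw [minpoly.aeval, map_zero] at h9
        exact h9
      rw [minpoly.isIntegrallyClosed_eq_field_fractions' ℚ h1, aeval_map_algebraMap] at h8
      exact h8
    · rw [map_div₀, hβ, hβ]
      exact (hL _ (div_mem ((htri t).2 i) ((htri t).2 j))).2

end Pool.Agent.Results.MP_d69e80_al.CyclotomicEigenvalues
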