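import Pool.Agent.W963.GE.Final

/-!
# MP_d69e80_al: for virtually (nilpotent by nilpotent of bounded class) groups the uniform growth gap
is equivalent to Lehmer's conjecture

For `k, d ≥ 1` consider the groups `G` that have a subgroup `H` of index at most `d` such that
`Γ = γ_{k+1}(H)` is nilpotent, or `H / [Γ, Γ]` is not virtually nilpotent. For `d = 1`, `k = 1` this
contains all metabelian groups (solvability class at most `2`), which need not be linear over a field
and have no bounded rank. It is shown that the following are equivalent: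

* Lehmer's conjecture;
* the case `r = 2` of Q1 (metabelian groups);
* for all `k` and `d`, the growth gap in the class above.

Both directions are quantitative: Lehmer's conjecture with the constant `1 + ε` gives
`ρ_S ≥ log (2 / (1 + exp ((1 + ε)^(-2) - 1))) / (2^(k+1) (2d - 1))`, and the gap `c` for metabelian
groups gives Lehmer's conjecture with the constant `1 + min (1, e^c - 1)`.

Proof (library `Pool.Agent.W963.GE`, `Pool.Agent.H785R3`): words in two short elements separate the
digit sums `∑ ε_i x ^ i` of an algebraic unit `x`, not a root of unity, or freely generate a free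
semigroup; the number of digit sums of length `n` is at least `(2 / (1 + exp (M⁻² - 1))) ^ n` for the
Mahler measure `M` of `x`. For the converse the groups generated by `z ↦ x z` and `z ↦ z + 1`.
-/

set_option autoImplicit false

namespace Pool.Agent.Results.MP_d69e80_al.LehmerEquivalence

open Filter Topology Polynomial
open scoped Pointwise commutatorElement

/-- `ρ_S = lim (1/n) log |S ^ n|`, `S ^ n` the set of the products of `n` elements of `S`. -/
noncomputable def rho {G : Type*} [Group G] (S : Set G) : ℝ :=
  limUnder atTop (fun n : ℕ => Real.log (Nat.card ↥(S ^ n)) / n)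

/-- The term `γ_{k+1}(G)` of the lower central series (so `k = 1` gives `G'`). -/
abbrev gamma (G : Type*) [Group G] (k : ℕ) : Subgroup G := (⊤ : Subgroup G).lowerCentralSeries k

/-- The class for `k` and `d`: some subgroup `H` of index at most `d` has nilpotent `Γ = γ_{k+1}(H)`,
or `H / [Γ, Γ]` is not virtually nilpotent. -/
def InClass (k d : ℕ) (G : Type*) [Group G] : Prop :=
  ∃ H : Subgroup G, H.index ≠ 0 ∧ H.index ≤ d ∧ (Group.IsNilpotent (gamma H k) ∨
    ¬ Group.IsVirtuallyNilpotent (H ⧸ ⁅gamma H k, gamma H k⁆))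

/-- The growth gap with constant `c` in the class for `k` and `d`. -/
def ClassGap (k d : ℕ) (c : ℝ) : Prop :=
  ∀ (G : Type) [Group G] (S : Set G), S.Finite → Subgroup.closure S = ⊤ →
    InClass k d G → Group.IsVirtuallyNilpotent G ∨ c ≤ rho S

/-- The growth gap with constant `c` for metabelian groups: the case `r = 2` of Q1. -/
def MetabelianGap (c : ℝ) : Prop :=
  ∀ (G : Type) [Group G] (S : Set G), S.Finite → Subgroup.closure S = ⊤ →
    derivedSeries G 2 = ⊥ → Group.IsVirtuallyNilpotent G ∨ c ≤ rho S

/-- Lehmer's conjecture with the constant `1 + ε`. -/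
def LehmerWith (ε : ℝ) : Prop :=
  ∀ p : ℤ[X], p ≠ 0 → (p.map (Int.castRingHom ℂ)).mahlerMeasure = 1 ∨
    1 + ε ≤ (p.map (Int.castRingHom ℂ)).mahlerMeasure

/-- **Lehmer's conjecture is the growth gap for metabelian groups, and for all virtually (nilpotent
by nilpotent of bounded class) groups**, with explicit constants. -/
theorem result :
    (∀ (G : Type) [Group G] (S : Set G),
      Tendsto (fun n : ℕ => Real.log (Nat.card ↥(S ^ n)) / n) atTop (𝓝 (rho S))) ∧
    (∀ ε : ℝ, 0 < ε → LehmerWith ε → ∀ k d : ℕ, 1 ≤ k →
      ClassGap k d (Real.log (2 / (1 + Real.exp (1 / (1 + ε) ^ 2 - 1))) /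
        (2 ^ (k + 1) * (2 * d - 1)))) ∧
    (∀ c : ℝ, ClassGap 1 1 c → MetabelianGap c) ∧
    (∀ c : ℝ, MetabelianGap c → LehmerWith (min 1 (Real.exp c - 1))) ∧
    ((∃ ε > 0, LehmerWith ε) ↔ ∃ c > 0, MetabelianGap c) ∧
    ((∃ ε > 0, LehmerWith ε) ↔ ∀ k d : ℕ, 1 ≤ k → 1 ≤ d → ∃ c > 0, ClassGap k d c) := by
  refine ⟨fun G _ S => Pool.Agent.H746UG.tendsto_rho S, ?_,
    fun c hc => Pool.Agent.W963.GE.met_of_gap hc, fun c hc => Pool.Agent.W963.GE.lehmer_of_met hc,
    Pool.Agent.W963.GE.equivalences⟩
  intro ε hε hL k d hk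
  have h := Pool.Agent.W963.GE.gap_of_lehmer hε hL k d hk
  unfold Pool.Agent.W963.GE.base at h
  have e : -(1 - 1 / (1 + ε) ^ 2) = 1 / (1 + ε) ^ 2 - 1 := by ring
  rw [e] at h
  exact h

end Pool.Agent.Results.MP_d69e80_al.LehmerEquivalence
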