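import Mathlib
import Pool.Agent.X186.MK.U
import Pool.Agent.Y730.UG.Tri2

/-!
# Uniform growth gap for eigenvalues of bounded degree over fields with small conjugacy classes

Let `K` be a number field, for instance `ℚ`, `P` a prime ideal of its ring of integers, and let `m`,
`B`, `D`, `e` be natural numbers. Say that a complex number is of type `(m, B, e, D)` if it is
algebraic, of arbitrary degree, and has degree at most `D` over some number field `k`, of arbitrary
degree, contained in a finite Galois extension `k'` of `K`, of arbitrary degree, such that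

* for all `σ` in the Galois group of `k'` over `K`, `σ ^ m` has at most `B` conjugates;
* the ramification indices of `k'` over `K` at the primes above `P` are at most `e`.

The first condition is satisfied for `B = 1` if the quotient of the Galois group by its centre has
exponent `m`, for `m = 1` if all conjugacy classes have at most `B` elements, and for `m = t!`,
`B = t` if there is an abelian subgroup of index at most `t`.

Let `G = ⟨S⟩`, `H` a subgroup of index at most `d`, and let `Γ = γ_{k+1}(H)` be nilpotent (or
`H/[Γ,Γ]` not virtually nilpotent). If the eigenvalues of the elements of `H` on `ℂ ⊗ Γ^ab`, as far as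
they are units and not roots of unity, are of type `(m, B, e, D)`, then `G` is virtually nilpotent or
`ρ_S ≥ c / (e 2 ^ (k + 1) (2 d - 1))`, where `c > 0` depends on `K`, `P`, `m`, `B`, `D` only.

In particular this holds, with `k = 1`, if `H` is isomorphic to a group of upper triangular matrices,
of any size, whose diagonal entries belong to a field all of whose elements are of type
`(m, B, e, D)`.

Method: `Pool.Agent.X186.MK.mahler_near` says `n ≤ C e log M(x)` for algebraic integers `x` of degree
`n` of type `(m, B, e, D)`, not `0` or a root of unity. The coefficients of the minimal polynomial of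
`x` over `k` are a point of projective space of dimension at most `D`, and taking `p`-th powers of the
zeros is an endomorphism of projective space, which is a `p`-th power modulo `p`; the lower bound
`Pool.Agent.H627.LP.final` for canonical heights of points over `k'` does not depend on the degree of
`k'`. The growth of digit sums in base `x` is bounded from below in terms of `M(x)`.
-/

set_option autoImplicit false

namespace Pool.Agent.Results.MP_d69e80_al.SmallClassEigenvalues

open Filter Topology Polynomial NumberField
open scoped Pointwise commutatorElement TensorProduct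

universe u

/-- The term `γ_{k+1}(G)` of the lower central series (so `k = 1` gives `G'`). -/
abbrev gamma (G : Type*) [Group G] (k : ℕ) : Subgroup G := (⊤ : Subgroup G).lowerCentralSeries k

/-- Conjugation by `t` on the abelianization `N^ab` (written additively) of a normal subgroup `N`,
as an endomorphism of the abelian group `N^ab`. -/
noncomputable def conjAb {G : Type*} [Group G] (N : Subgroup G) [N.Normal] (t : G) :
    Module.End ℤ (Additive (Abelianization N)) :=
  (MonoidHom.toAdditive
    (Abelianization.map (MulAut.conjNormal t : N ≃* N).toMonoidHom)).toIntLinearMap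

/-- `z` is an algebraic unit, and not a root of unity -/
def IsFreeUnit (z : ℂ) : Prop :=
  z ≠ 0 ∧ IsIntegral ℤ z ∧ IsIntegral ℤ z⁻¹ ∧ ∀ m : ℕ, 0 < m → z ^ m ≠ 1

/-- The complex number `z` is algebraic and has degree at most `D` over a subfield of `ℂ` isomorphic
to a number field `k`, where `k` is a subfield of a finite Galois extension `k'` of `K` such that,
for all `σ` in the Galois group, `σ ^ m` has at most `B` conjugates, and the ramification indices of
`k'` over `K` at the primes above `P` are at most `e`. -/
def SmallClassDegree (K : Type) [Field K] [NumberField K] (P : Ideal (𝓞 K)) (m B e D : ℕ)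
    (z : ℂ) : Prop :=
  IsAlgebraic ℚ z ∧
  ∃ (k k' : Type) (_ : Field k) (_ : NumberField k) (_ : Field k') (_ : NumberField k')
    (_ : Algebra k k') (_ : Algebra K k') (φ : k →+* ℂ),
    IsGalois K k' ∧
    (∀ σ : Gal(k'/K), (Set.range fun g : Gal(k'/K) => g * σ ^ m * g⁻¹).ncard ≤ B) ∧
    (∀ 𝔓 : Ideal (𝓞 k'), 𝔓.IsPrime → 𝔓.under (𝓞 K) = P → 𝔓.ramificationIdx (𝓞 K) ≤ e) ∧
    (minpoly φ.fieldRange z).natDegree ≤ D

/-- `ρ` is the exponential growth rate of `S` -/
def IsGrowthRate {G : Type u} [Group G] (S : Set G) (ρ : ℝ) : Prop :=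
  Tendsto (fun n : ℕ => Real.log (Nat.card ↥(S ^ n)) / n) atTop (𝓝 ρ)

/-- the group `G = ⟨S⟩` is virtually nilpotent or has growth rate at least `b` for the generating set
`S` -/
def GapFor {G : Type u} [Group G] (S : Set G) (b : ℝ) : Prop :=
  ∃ ρ : ℝ, IsGrowthRate S ρ ∧ (Group.IsVirtuallyNilpotent G ∨ b ≤ ρ)

/-- for `Γ = γ_{k+1}(H)`, the eigenvalues of the elements of `H` on `ℂ ⊗ Γ^ab` have the property `Q`,
as far as they are units and not roots of unity -/
def Eigenvalues (Q : ℂ → Prop) (H : Type u) [Group H] (k : ℕ) : Prop :=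
  ∀ (t : H) (z : ℂ), Module.End.HasEigenvalue
    (LinearMap.baseChange ℂ (conjAb (gamma H k) t) :
      Module.End ℂ (ℂ ⊗[ℤ] Additive (Abelianization (gamma H k)))) z →
    IsFreeUnit z → Q z

/-- `Γ = γ_{k+1}(H)` is nilpotent, or `H / [Γ, Γ]` is not virtually nilpotent -/
def Tail (H : Type u) [Group H] (k : ℕ) : Prop :=
  Group.IsNilpotent (gamma H k) ∨ ¬ Group.IsVirtuallyNilpotent (H ⧸ ⁅gamma H k, gamma H k⁆)

/-- `H` is isomorphic to a group of upper triangular complex matrices (of some size) with all
diagonal entries in the field `L` -/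
def Triangular (L : IntermediateField ℚ ℂ) (H : Type u) [Group H] : Prop :=
  ∃ (n : ℕ) (φ : H →* GL (Fin n) ℂ), Function.Injective φ ∧
    ∀ h : H, (∀ i j : Fin n, j < i → φ h i j = 0) ∧ ∀ i : Fin n, φ h i i ∈ L

/-- Let `P` be a prime ideal of the ring of integers of the number field `K` which contains the prime
number `p`, and let `m ≥ 1`, `B`, `D` be natural numbers. There is `c > 0` with the following
property. Let `e ≥ 1`, let `S` be a finite generating set of a group `G`, and `H` a subgroup of index
at most `d`. Then `ρ_S` exists, and `G` is virtually nilpotent or `ρ_S` is at least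
(1) `c / (e 2 ^ (k + 1) (2 d - 1))` if, for some `k ≥ 1`, `Γ = γ_{k+1}(H)` is nilpotent (or
`H / [Γ, Γ]` is not virtually nilpotent) and the eigenvalues of the elements of `H` on `ℂ ⊗ Γ^ab`, as
far as they are units and not roots of unity, satisfy `SmallClassDegree K P m B e D`;
(2) `c / (4 e (2 d - 1))` if `H` is isomorphic to a group of upper triangular complex matrices, of
any size, with diagonal entries in a field `L` all of whose elements satisfy
`SmallClassDegree K P m B e D`. -/
theorem result (K : Type) [Field K] [NumberField K] (p : ℕ) (hp : p.Prime) (P : Ideal (𝓞 K))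
    (hP : P.IsPrime) (hpP : (p : 𝓞 K) ∈ P) (m B D : ℕ) (hm : 1 ≤ m) :
    ∃ c : ℝ, 0 < c ∧ ∀ (e : ℕ), 0 < e → ∀ (G : Type u) [Group G] (S : Set G), S.Finite →
      Subgroup.closure S = ⊤ → ∀ (d : ℕ) (H : Subgroup G), H.index ≠ 0 → H.index ≤ d →
      (∀ k : ℕ, 1 ≤ k → Tail H k → Eigenvalues (SmallClassDegree K P m B e D) H k →
        GapFor S (c / (e * 2 ^ (k + 1) * (2 * d - 1)))) ∧
      (∀ L : IntermediateField ℚ ℂ, (∀ β ∈ L, SmallClassDegree K P m B e D β) → Triangular L H →
        GapFor S (c / (4 * e * (2 * d - 1)))) := by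
  obtain ⟨c, hc, hgap⟩ := Pool.Agent.X186.MK.gap_near K p hp P hP hpP m B D hm
  refine ⟨c, hc, ?_⟩
  intro e he G _ S hfin hgen d H hH0 hHd
  constructor
  · intro k hk hnil heig
    refine ⟨Pool.Agent.H746UG.rho S, Pool.Agent.H746UG.tendsto_rho S,
      hgap e he hk S hfin hgen H hH0 hHd hnil ?_⟩
    intro t z hz h0 h1 h2 h3
    exact ⟨z, minpoly.aeval ℤ z, (heig t z hz ⟨h0, h1, h2, h3⟩).2⟩
  · rintro L hL ⟨n, φ, hφ, htri⟩
    have hB : ∀ h, φ h ∈ Pool.Agent.Y730.UG.Bor n ℂ := fun h =>
      Pool.Agent.Y730.UG.mem_Bor (htri h).1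
    have e1 : c / (4 * e * (2 * d - 1)) = c / (e * 2 ^ (1 + 1) * (2 * d - 1)) := by
      congr 1
      ring
    rw [e1]
    refine ⟨Pool.Agent.H746UG.rho S, Pool.Agent.H746UG.tendsto_rho S,
      hgap e he le_rfl S hfin hgen H hH0 hHd
        (Or.inl (Pool.Agent.Y730.UG.gam_nilp φ hB hφ)) ?_⟩
    intro t z hz h0 h1 h2 h3
    -- an embedding of the algebraic numbers
    have hnormal := Pool.Agent.X186.MJ.normal_rat
    have halg : Algebra.IsAlgebraic ℚ (AlgebraicClosure ℚ) := hnormal.toIsAlgebraic
    let ι : AlgebraicClosure ℚ →+* ℂ := (IsAlgClosed.lift : AlgebraicClosure ℚ →ₐ[ℚ] ℂ).toRingHom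
    have hι : ∀ y : ℂ, IsAlgebraic ℚ y → ∃ β : AlgebraicClosure ℚ, ι β = y := by
      intro y hy
      have hyi : IsIntegral ℚ y := hy.isIntegral
      have hs : ((minpoly ℚ y).map (algebraMap ℚ (AlgebraicClosure ℚ))).Splits :=
        IsAlgClosed.splits _
      have h4 := hs.eq_prod_roots_of_monic ((minpoly.monic hyi).map _)
      have h5 : ((minpoly ℚ y).map (algebraMap ℚ (AlgebraicClosure ℚ))).map ι =
          (minpoly ℚ y).map (algebraMap ℚ ℂ) := by
        rw [Polynomial.map_map]
        congr 1
        exact Subsingleton.elim _ _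
      have h6 : ((minpoly ℚ y).map (algebraMap ℚ ℂ)).eval y = 0 := by
        rw [eval_map_algebraMap, minpoly.aeval]
      rw [← h5, h4, Polynomial.map_multiset_prod, Multiset.map_map, eval_multiset_prod,
        Multiset.prod_eq_zero_iff, Multiset.mem_map] at h6
      obtain ⟨P, hP, hP0⟩ := h6
      obtain ⟨β, hβ, rfl⟩ := Multiset.mem_map.mp hP
      refine ⟨β, ?_⟩
      simp only [Function.comp_apply, Polynomial.map_sub, map_X, map_C, eval_sub, eval_X,
        eval_C] at hP0
      exact (sub_eq_zero.mp hP0).symm
    choose β hβ using fun i => hι (φ t i i) (hL _ ((htri t).2 i)).1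
    obtain ⟨i, j, hij⟩ := Pool.Agent.Y730.UG.eig_tri φ hB hφ t ι β hβ hz
    -- the conjugate in `L`
    refine ⟨ι (β i / β j), ?_, ?_⟩
    · have hzQ : IsIntegral ℚ z := h1.tower_top
      have hβi : IsIntegral ℚ (β i / β j) := by
        obtain ⟨P, hP0, hP⟩ : IsAlgebraic ℚ (β i / β j) := by
          have h7 : IsAlgebraic ℚ (ι (β i / β j)) := by
            rw [map_div₀, hβ, hβ]
            exact (hL _ (div_mem ((htri t).2 i) ((htri t).2 j))).1
          obtain ⟨P, hP0, hP⟩ := h7
          refine ⟨P, hP0, ι.injective ?_⟩
          have h8 := Polynomial.aeval_algHom_apply ι.toRatAlgHom (β i / β j) P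
          rw [map_zero]
          exact h8.symm.trans hP
        exact (IsAlgebraic.isIntegral ⟨P, hP0, hP⟩)
      have hmin : minpoly ℚ z = minpoly ℚ (β i / β j) := by
        have h7 : minpoly ℚ z ∣ minpoly ℚ (β i / β j) := minpoly.dvd ℚ z hij
        exact eq_of_monic_of_associated (minpoly.monic hzQ) (minpoly.monic hβi)
          ((minpoly.irreducible hzQ).associated_of_dvd (minpoly.irreducible hβi) h7)
      have h8 : aeval (ι (β i / β j)) (minpoly ℚ z) = 0 := by
        rw [hmin]
        have h9 := Polynomial.aeval_algHom_apply ι.toRatAlgHom (β i / β j)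
          (minpoly ℚ (β i / β j))
        rw [minpoly.aeval, map_zero] at h9
        exact h9
      rw [minpoly.isIntegrallyClosed_eq_field_fractions' ℚ h1, aeval_map_algebraMap] at h8
      exact h8
    · rw [map_div₀, hβ, hβ]
      exact (hL _ (div_mem ((htri t).2 i) ((htri t).2 j))).2

end Pool.Agent.Results.MP_d69e80_al.SmallClassEigenvalues
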